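import Mathlib
import Pool.Agent.Helper1.BalanceDefs
import Pool.Agent.Helper1.BalanceProof
import Pool.Agent.Helper19.Forest.Upper
import Pool.Agent.Helper73.KS.Cons

/-!
# N-free (series-parallel) posets: the Kahn-Saks conjecture, discreteness of the balance
constants below one half, and growth of the minimal balance constants
-/

set_option autoImplicit false

namespace Pool.Agent.Helper73.Kept.NFreePosets

open Pool.Agent.Helper1.Balance

/-- `x` and `y` are incomparable -/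
def Incomp {n : ℕ} (r : Fin n → Fin n → Prop) (x y : Fin n) : Prop := ¬ r x y ∧ ¬ r y x

/-- `r` is `N`-free: there are no `a < c`, `b < c`, `b < d` with `a, b` incomparable, `c, d`
incomparable and `a, d` incomparable. The finite `N`-free posets are the series-parallel ones. -/
def IsNFree {n : ℕ} (r : Fin n → Fin n → Prop) : Prop :=
  ¬ ∃ a b c d : Fin n, r a c ∧ r b c ∧ r b d ∧ Incomp r a b ∧ Incomp r c d ∧ Incomp r a d

/-- `r` is an ordinal sum of blocks with at most `B` elements: the fibres of `f` are the blocks,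
and every element of a lower block is below every element of a higher block. -/
def IsSumOfBlocks {n : ℕ} (r : Fin n → Fin n → Prop) (B : ℕ) : Prop :=
  ∃ f : Fin n → ℕ, (∀ a b, f a < f b → r a b) ∧
    ∀ i, (Finset.univ.filter fun a => f a = i).card ≤ B

/-- The infimum of the balance constants of the finite `N`-free posets of width `w`. -/
noncomputable def deltaNFree (w : ℕ) : ℝ :=
  sInf {d : ℝ | ∃ (n : ℕ) (r : Fin n → Fin n → Prop),
    IsPoset r ∧ IsNFree r ∧ HasWidth r w ∧ d = balance r}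

theorem nf_of {n : ℕ} {r : Fin n → Fin n → Prop} (h : IsNFree r) :
    Pool.Agent.Helper73.KS.NF r := by
  intro a b c d h1 h2 h3
  by_contra hcon
  push Not at hcon
  exact h ⟨a, b, c, d, h1, h2, h3, hcon.1, hcon.2.1, hcon.2.2⟩

theorem blocks {ε : ℝ} (hε : 0 < ε) : ∃ B : ℕ, ∀ (n : ℕ) (r : Fin n → Fin n → Prop),
    IsPoset r → IsNFree r → balance r ≤ 1 / 2 - ε → IsSumOfBlocks r B := by
  obtain ⟨N, hN⟩ := Pool.Agent.Helper73.KS.main_bound hε
  exact ⟨max N 1, fun n r h1 h2 h3 => (hN n r h1 (nf_of h2) h3).1⟩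

theorem finite_set {ε : ℝ} (hε : 0 < ε) : {d : ℝ | d ≤ 1 / 2 - ε ∧
    ∃ (n : ℕ) (r : Fin n → Fin n → Prop), IsPoset r ∧ IsNFree r ∧ d = balance r}.Finite := by
  obtain ⟨N, hN⟩ := Pool.Agent.Helper73.KS.main_bound hε
  refine Set.Finite.subset ((Set.finite_singleton (0:ℝ)).union
    (Set.Finite.image2 min (Pool.Agent.Helper73.KS.finite_vals N)
      (Pool.Agent.Helper73.KS.finite_vals N))) ?_
  rintro d ⟨hd, n, r, h1, h2, rfl⟩
  rcases (hN n r h1 (nf_of h2) hd).2 with h3 | ⟨S, x, y, S', x', y', h4, h5, h6⟩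
  · exact Or.inl h3
  · exact Or.inr ⟨_, ⟨S, x, y, h4, rfl⟩, _, ⟨S', x', y', h5, rfl⟩, h6.symm⟩

/-- antichains of an ordinal sum of small blocks are small -/
theorem width_le {n : ℕ} {r : Fin n → Fin n → Prop} {B w : ℕ} (h : IsSumOfBlocks r B)
    (hw : HasWidth r w) : w ≤ B := by
  obtain ⟨f, hf1, hf2⟩ := h
  obtain ⟨⟨s, hs, hanti⟩, -⟩ := hw
  rcases s.eq_empty_or_nonempty with h0 | ⟨a, ha⟩
  · rw [← hs, h0]
    exact Nat.zero_le _
  · rw [← hs]
    refine le_trans (Finset.card_le_card ?_) (hf2 (f a))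
    intro b hb
    rw [Finset.mem_filter]
    refine ⟨Finset.mem_univ _, ?_⟩
    by_contra hne
    rcases lt_or_gt_of_ne hne with h1 | h1
    · exact hanti b hb a ha (fun he => hne (by rw [he])) (hf1 b a h1)
    · exact hanti a ha b hb (fun he => hne (by rw [he])) (hf1 a b h1)

theorem bddBelow_set (w : ℕ) : BddBelow {d : ℝ | ∃ (n : ℕ) (r : Fin n → Fin n → Prop),
    IsPoset r ∧ IsNFree r ∧ HasWidth r w ∧ d = balance r} := by
  refine ⟨0, ?_⟩
  rintro d ⟨n, r, _, _, _, rfl⟩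
  exact balance_nonneg r

/-- examples: width at least two -/
theorem example_two (w : ℕ) (hw : 2 ≤ w) : ∃ (n : ℕ) (r : Fin n → Fin n → Prop),
    IsPoset r ∧ IsNFree r ∧ HasWidth r w ∧ balance r ≤ 1 / 2 - 1 / (12 * ((w : ℝ) - 1)) := by
  obtain ⟨m, r, Z, _, h, hF⟩ := Pool.Agent.Helper19.Forest.exists_St_forest w hw
  have hw' : (2 : ℝ) ≤ w := by exact_mod_cast hw
  refine ⟨m, r, h.poset, ?_, h.width, ?_⟩
  · rintro ⟨a, b, c, d, _, h2, h3, _, h5, _⟩
    rcases hF b c d h2 h3 with h6 | h6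
    · exact h5.1 h6
    · exact h5.2 h6
  · unfold balance
    apply Real.sSup_le
    · rintro t ⟨x, y, h1, h2, rfl⟩
      exact h.bal x y h1 h2
    · have : 1 / (12 * ((w : ℝ) - 1)) ≤ 1 / 12 := by
        apply one_div_le_one_div_of_le
        · norm_num
        · linarith
      linarith

/-- examples: width at most one -/
theorem example_one (w : ℕ) (hw : w ≤ 1) : ∃ (n : ℕ) (r : Fin n → Fin n → Prop),
    IsPoset r ∧ IsNFree r ∧ HasWidth r w ∧ balance r = 0 := by
  have hsub : ∀ a b : Fin w, a = b := by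
    intro a b
    apply Fin.ext
    have := a.2
    have := b.2
    omega
  refine ⟨w, fun _ _ => True, ?_, ?_, ?_, ?_⟩
  · exact ⟨fun _ => trivial, fun _ _ _ _ _ => trivial, fun a b _ _ => hsub a b⟩
  · rintro ⟨a, b, c, d, _, _, _, h, _, _⟩
    exact h.1 trivial
  · refine ⟨⟨Finset.univ, by simp, ?_⟩, ?_⟩
    · intro a _ b _ hab
      exact absurd (hsub a b) hab
    · intro s _
      exact (Finset.card_le_univ s).trans (by simp)
  · unfold balance
    have : {t : ℝ | ∃ x y : Fin w, ¬ True ∧ ¬ True ∧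
        t = min (prob (fun _ _ : Fin w => True) x y) (prob (fun _ _ : Fin w => True) y x)} = ∅ := by
      ext t
      simp
    rw [this, Real.sSup_empty]

theorem example_lt (w : ℕ) : ∃ (n : ℕ) (r : Fin n → Fin n → Prop),
    IsPoset r ∧ IsNFree r ∧ HasWidth r w ∧ balance r < 1 / 2 := by
  rcases Nat.lt_or_ge w 2 with h | h
  · obtain ⟨n, r, h1, h2, h3, h4⟩ := example_one w (by omega)
    exact ⟨n, r, h1, h2, h3, by rw [h4]; norm_num⟩
  · obtain ⟨n, r, h1, h2, h3, h4⟩ := example_two w h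
    have hw' : (2 : ℝ) ≤ w := by exact_mod_cast h
    have h5 : 0 < 1 / (12 * ((w : ℝ) - 1)) := div_pos one_pos (by linarith)
    exact ⟨n, r, h1, h2, h3, by linarith⟩

theorem attained (w : ℕ) : ∃ (n : ℕ) (r : Fin n → Fin n → Prop),
    IsPoset r ∧ IsNFree r ∧ HasWidth r w ∧ balance r = deltaNFree w := by
  obtain ⟨n₀, r₀, h1, h2, h3, h4⟩ := example_lt w
  set D := {d : ℝ | ∃ (n : ℕ) (r : Fin n → Fin n → Prop),
    IsPoset r ∧ IsNFree r ∧ HasWidth r w ∧ d = balance r} with hD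
  set F := {d ∈ D | d ≤ balance r₀} with hF
  have hε : 0 < 1 / 2 - balance r₀ := by linarith
  have hfin : F.Finite := by
    refine (finite_set hε).subset ?_
    rintro d ⟨⟨n, r, g1, g2, _, g4⟩, g5⟩
    exact ⟨by linarith, n, r, g1, g2, g4⟩
  have hne : F.Nonempty := ⟨balance r₀, ⟨n₀, r₀, h1, h2, h3, rfl⟩, le_rfl⟩
  obtain ⟨m, hm, hmin⟩ := hfin.exists_minimalFor id F hne
  have hle : ∀ d ∈ D, m ≤ d := by
    intro d hd
    rcases le_total d m with h5 | h5
    · exact hmin ⟨hd, h5.trans hm.2⟩ h5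
    · exact h5
  have heq : deltaNFree w = m := le_antisymm (csInf_le (bddBelow_set w) hm.1)
    (le_csInf ⟨m, hm.1⟩ hle)
  obtain ⟨⟨n, r, g1, g2, g3, g4⟩, _⟩ := hm
  exact ⟨n, r, g1, g2, g3, by rw [heq, g4]⟩

theorem lt_half (w : ℕ) : deltaNFree w < 1 / 2 := by
  obtain ⟨n, r, h1, h2, h3, h4⟩ := example_lt w
  exact lt_of_le_of_lt (csInf_le (bddBelow_set w) ⟨n, r, h1, h2, h3, rfl⟩) h4

theorem large {ε : ℝ} (hε : 0 < ε) : ∃ W : ℕ, ∀ w, W ≤ w → 1 / 2 - ε < deltaNFree w := by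
  obtain ⟨B, hB⟩ := blocks hε
  refine ⟨B + 1, fun w hw => ?_⟩
  obtain ⟨n, r, h1, h2, h3, h4⟩ := attained w
  rw [← h4]
  by_contra hc
  have := width_le (hB n r h1 h2 (not_lt.1 hc)) h3
  omega

/-- **N-free posets.**
* for every `ε > 0` there is `B` such that every finite `N`-free poset with balance constant at
  most `1/2 - ε` is an ordinal sum of blocks with at most `B` elements;
* for every `ε > 0` only finitely many numbers `≤ 1/2 - ε` are balance constants of finite
  `N`-free posets;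
* for every `w` the infimum `deltaNFree w` is attained and smaller than `1/2`;
* for every `w` one has `deltaNFree w < deltaNFree w'` for all large `w'`, and there are infinitely
  many `w` with `deltaNFree w < deltaNFree (w + 1)`;
* `deltaNFree w → 1/2` as `w → ∞`. -/
theorem result :
    (∀ ε : ℝ, 0 < ε → ∃ B : ℕ, ∀ (n : ℕ) (r : Fin n → Fin n → Prop),
      IsPoset r → IsNFree r → balance r ≤ 1 / 2 - ε → IsSumOfBlocks r B) ∧
    (∀ ε : ℝ, 0 < ε → {d : ℝ | d ≤ 1 / 2 - ε ∧
      ∃ (n : ℕ) (r : Fin n → Fin n → Prop), IsPoset r ∧ IsNFree r ∧ d = balance r}.Finite) ∧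
    (∀ w : ℕ, ∃ (n : ℕ) (r : Fin n → Fin n → Prop),
      IsPoset r ∧ IsNFree r ∧ HasWidth r w ∧ balance r = deltaNFree w ∧ balance r < 1 / 2) ∧
    (∀ w : ℕ, ∃ W : ℕ, ∀ w' : ℕ, W ≤ w' → deltaNFree w < deltaNFree w') ∧
    (∀ w₀ : ℕ, ∃ w : ℕ, w₀ ≤ w ∧ deltaNFree w < deltaNFree (w + 1)) ∧
    Filter.Tendsto deltaNFree Filter.atTop (nhds (1 / 2)) := by
  have h4 : ∀ w : ℕ, ∃ W : ℕ, ∀ w' : ℕ, W ≤ w' → deltaNFree w < deltaNFree w' := by
    intro w
    have h1 := lt_half w
    obtain ⟨W, hW⟩ := large (ε := 1 / 2 - deltaNFree w) (by linarith)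
    refine ⟨W, fun w' hw' => ?_⟩
    have := hW w' hw'
    linarith
  refine ⟨fun ε hε => blocks hε, fun ε hε => finite_set hε, fun w => ?_, h4, fun w₀ => ?_, ?_⟩
  · obtain ⟨n, r, h1, h2, h3, h5⟩ := attained w
    exact ⟨n, r, h1, h2, h3, h5, by rw [h5]; exact lt_half w⟩
  · obtain ⟨W, hW⟩ := h4 w₀
    by_contra hcon
    push Not at hcon
    have h5 : ∀ k, deltaNFree (w₀ + k) ≤ deltaNFree w₀ := by
      intro k
      induction k with
      | zero => exact le_rfl
      | succ k ih => exact (hcon (w₀ + k) (by omega)).trans ih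
    have h6 := hW (w₀ + W) (by omega)
    have h7 := h5 W
    linarith
  · rw [Metric.tendsto_atTop]
    intro ε hε
    obtain ⟨W, hW⟩ := large hε
    refine ⟨W, fun w hw => ?_⟩
    have h1 := hW w hw
    have h2 := lt_half w
    rw [Real.dist_eq, abs_lt]
    constructor <;> linarith

end Pool.Agent.Helper73.Kept.NFreePosets
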